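import Mathlib
import Pool.Agent.W203.SP.Stm2
set_option autoImplicit false

/-! The Fourier transform of dilated densities on the sphere of `ℝ^(k+1)`. -/

namespace Pool.Agent.W933.SP

open MeasureTheory Set Complex Filter Metric
open scoped ENNReal NNReal FourierTransform RealInnerProductSpace ContDiff
open Pool.Agent.H153R4 (E BS ch ST cube kk dd)
open Pool.Agent.W203.SP

variable {k : ℕ}

/-- the upper half space -/
def HS (k : ℕ) : Set (E (k + 1)) := {x | 0 < x (Fin.last k)}

lemma HS_meas : MeasurableSet (HS k) := measurableSet_lt measurable_const (by fun_prop)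

/-- the density of the sphere over the plane -/
noncomputable def wt2 (y : E k) : ℝ := 1 / Real.sqrt (1 - ‖y‖ ^ 2)

lemma wt2_meas : Measurable (wt2 : E k → ℝ) :=
  measurable_const.div (measurable_const.sub (measurable_norm.pow_const 2)).sqrt

lemma wt2_nn (y : E k) : 0 ≤ wt2 y := by
  unfold wt2
  positivity

lemma toLp_meas {n : ℕ} : Measurable fun x : Fin n → ℝ => (WithLp.toLp 2 x : E n) :=
  (PiLp.volume_preserving_toLp (Fin n)).measurable

lemma up_meas : Measurable (up : E k → E (k + 1)) := by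
  unfold up
  apply toLp_meas.comp
  rw [measurable_pi_iff]
  intro j
  refine Fin.lastCases ?_ (fun i => ?_) j
  · simp only [Fin.snoc_last]
    exact (measurable_const.sub (measurable_norm.pow_const 2)).sqrt
  · simp only [Fin.snoc_castSucc]
    fun_prop

lemma up_last (y : E k) : (up y) (Fin.last k) = Real.sqrt (1 - ‖y‖ ^ 2) := by
  show (Fin.snoc (α := fun _ : Fin (k + 1) => ℝ) (fun j => y j) (Real.sqrt (1 - ‖y‖ ^ 2)) :
    Fin (k + 1) → ℝ) (Fin.last k) = _
  rw [Fin.snoc_last]

lemma up_cast (y : E k) (j : Fin k) : (up y) j.castSucc = y j := by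
  show (Fin.snoc (α := fun _ : Fin (k + 1) => ℝ) (fun j => y j) (Real.sqrt (1 - ‖y‖ ^ 2)) :
    Fin (k + 1) → ℝ) j.castSucc = _
  rw [Fin.snoc_castSucc]

lemma half_meas (h : S_SPH) : (sg (k + 1)).restrict (HS k) = Measure.map up
    ((volume.restrict (ball (0 : E k) 1)).withDensity fun y => ENNReal.ofReal (wt2 y)) := by
  ext A hA
  have h1 := h k (A.indicator 1) (measurable_one.indicator hA)
  have h2 : ∫⁻ x in {x : E (k + 1) | 0 < x (Fin.last k)}, A.indicator 1 x ∂(sg (k + 1)) =
      (sg (k + 1)).restrict (HS k) A := by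
    rw [lintegral_indicator_one hA]
    rfl
  rw [← h2, h1, Measure.map_apply up_meas hA, withDensity_apply _ (up_meas hA),
    ← lintegral_indicator (up_meas hA)]
  apply lintegral_congr
  intro y
  by_cases hy : up y ∈ A
  · rw [indicator_of_mem hy, indicator_of_mem (show y ∈ up ⁻¹' A from hy)]
    simp [wt2]
  · rw [indicator_of_notMem hy, indicator_of_notMem (show y ∉ up ⁻¹' A from hy), mul_zero]

lemma half_int (h : S_SPH) (F : E (k + 1) → ℂ) (hF : Measurable F) :
    ∫ x in HS k, F x ∂(sg (k + 1)) = ∫ y in ball (0 : E k) 1, ((wt2 y : ℝ) : ℂ) * F (up y) := by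
  rw [half_meas h, integral_map up_meas.aemeasurable hF.aestronglyMeasurable,
    integral_withDensity_eq_integral_toReal_smul wt2_meas.ennreal_ofReal
    (ae_of_all _ fun _ => ENNReal.ofReal_lt_top)]
  apply integral_congr_ae
  refine ae_of_all _ fun y => ?_
  simp only
  rw [ENNReal.toReal_ofReal (wt2_nn y), Complex.real_smul]

lemma ee_meas {α : Type*} [MeasurableSpace α] {g : α → ℝ} (hg : Measurable g) :
    Measurable fun x => ee (g x) := by
  unfold ee
  exact Complex.measurable_exp.comp ((Complex.measurable_ofReal.comp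
    (measurable_const.mul hg)).mul measurable_const)

lemma dens_meas (l : Fin k → ℝ) {f : E k → ℂ} (hf : Measurable f) : Measurable (dens l f) := by
  unfold dens
  apply Measurable.ite
  · have hS : MeasurableSet {x : E (k + 1) | ∑ j : Fin k, (x j.castSucc / l j) ^ 2 < 1} := by
      refine measurableSet_lt ?_ measurable_const
      refine Finset.measurable_sum _ fun j _ => ?_
      fun_prop
    exact HS_meas.inter hS
  · refine hf.comp (toLp_meas.comp ?_)
    rw [measurable_pi_iff]
    intro j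
    fun_prop
  · exact measurable_const

/-- the dilation of the coordinates -/
noncomputable def dl (l : Fin k → ℝ) (z : E k) : E k := WithLp.toLp 2 fun j => l j * z j

lemma dl_apply (l : Fin k → ℝ) (z : E k) (j : Fin k) : (dl l z) j = l j * z j := rfl

/-- change of variables -/
lemma int_dl (l : Fin k → ℝ) (hl : ∀ j, 0 < l j) (G : E k → ℂ) (hG : Measurable G) :
    ∫ y, G y = ((∏ j, l j : ℝ) : ℂ) * ∫ z, G (dl l z) := by
  have hprod : 0 < ∏ j, l j := Finset.prod_pos fun j _ => hl j
  have e1 : ∀ H : E k → ℂ, ∫ y, H y = ∫ x : Fin k → ℝ, H (WithLp.toLp 2 x) := by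
    intro H
    have := (PiLp.volume_preserving_toLp (Fin k)).integral_comp
      (MeasurableEquiv.toLp 2 (Fin k → ℝ)).measurableEmbedding H
    exact this.symm
  rw [e1 G, e1 (fun z => G (dl l z))]
  have hdet : (Matrix.diagonal l).det = ∏ j, l j := Matrix.det_diagonal
  have h := Real.smul_map_diagonal_volume_pi (D := l) (by rw [hdet]; exact hprod.ne')
  rw [hdet, abs_of_pos hprod] at h
  have hfun : (Matrix.toLin' (Matrix.diagonal l) : (Fin k → ℝ) → (Fin k → ℝ)) =
      fun x j => l j * x j := by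
    ext x j
    rw [Matrix.toLin'_apply, Matrix.mulVec_diagonal]
  rw [hfun] at h
  have hm : Measurable fun (x : Fin k → ℝ) (j : Fin k) => l j * x j := by
    rw [measurable_pi_iff]
    intro j
    fun_prop
  have hGm : Measurable fun x : Fin k → ℝ => G (WithLp.toLp 2 x) := hG.comp toLp_meas
  calc ∫ x : Fin k → ℝ, G (WithLp.toLp 2 x)
      = ∫ x, G (WithLp.toLp 2 x) ∂(ENNReal.ofReal (∏ j, l j) •
          Measure.map (fun (x : Fin k → ℝ) (j : Fin k) => l j * x j) volume) := by rw [h]
    _ = (∏ j, l j : ℝ) • ∫ x, G (WithLp.toLp 2 x)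
          ∂(Measure.map (fun (x : Fin k → ℝ) (j : Fin k) => l j * x j) volume) := by
        rw [integral_smul_measure, ENNReal.toReal_ofReal hprod.le]
    _ = _ := by
        rw [integral_map hm.aemeasurable hGm.aestronglyMeasurable, Complex.real_smul]
        rfl

lemma norm_dl_sq (l : Fin k → ℝ) (z : E k) : ‖dl l z‖ ^ 2 = ∑ j, l j ^ 2 * z j ^ 2 := by
  rw [EuclideanSpace.real_norm_sq_eq]
  refine Finset.sum_congr rfl fun j _ => ?_
  rw [dl_apply, mul_pow]

theorem t_FD (h : S_SPH) : S_FD := by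
  intro k l hl f hf ξ
  unfold FD
  set F : E (k + 1) → ℂ := fun x => ee (-⟪x, ξ⟫) * dens l f x with hF
  have hFm : Measurable F := by
    rw [hF]
    exact (ee_meas (by fun_prop)).mul (dens_meas l hf)
  have e1 : ∫ x, F x ∂(sg (k + 1)) = ∫ x in HS k, F x ∂(sg (k + 1)) := by
    symm
    apply setIntegral_eq_integral_of_forall_compl_eq_zero
    intro x hx
    rw [hF]
    simp only [dens]
    rw [if_neg (fun h => hx h.1), mul_zero]
  set G : E k → ℂ := (ball (0 : E k) 1).indicator fun y => ((wt2 y : ℝ) : ℂ) * F (up y) with hG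
  have hGm : Measurable G := by
    rw [hG]
    exact ((Complex.measurable_ofReal.comp wt2_meas).mul (hFm.comp up_meas)).indicator
      measurableSet_ball
  have e2 : ∫ x in HS k, F x ∂(sg (k + 1)) = ∫ y, G y := by
    rw [half_int h F hFm, hG, integral_indicator measurableSet_ball]
  rw [e1, e2, int_dl l (fun j => (hl j).1) G hGm]
  congr 1
  rw [Real.fourier_eq']
  apply integral_congr_ae
  refine ae_of_all _ fun z => ?_
  simp only [hG, smul_eq_mul]
  have hpw : pw 1 (fun j => l j ^ 2) z = 1 - ‖dl l z‖ ^ 2 := by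
    unfold pw
    rw [norm_dl_sq]
  have hquot : ∀ j : Fin k, (up (dl l z)) j.castSucc / l j = z j := by
    intro j
    rw [up_cast, dl_apply, mul_div_cancel_left₀ _ (hl j).1.ne']
  have hsum : ∑ j : Fin k, ((up (dl l z)) j.castSucc / l j) ^ 2 = ‖z‖ ^ 2 := by
    rw [EuclideanSpace.real_norm_sq_eq]
    exact Finset.sum_congr rfl fun j _ => by rw [hquot]
  have hle : ‖dl l z‖ ^ 2 ≤ ‖z‖ ^ 2 := by
    rw [norm_dl_sq, EuclideanSpace.real_norm_sq_eq]
    refine Finset.sum_le_sum fun j _ => ?_
    have h1 : l j ^ 2 ≤ 1 := pow_le_one₀ (hl j).1.le (hl j).2.le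
    exact mul_le_of_le_one_left (sq_nonneg _) h1
  have hdens : dens l f (up (dl l z)) = if 0 < Real.sqrt (1 - ‖dl l z‖ ^ 2) ∧ ‖z‖ ^ 2 < 1 then f z
      else 0 := by
    unfold dens
    rw [up_last, hsum]
    congr 1
    congr 1
    ext j
    exact hquot j
  by_cases hz : ‖z‖ < 1
  · have hz2 : ‖z‖ ^ 2 < 1 := by nlinarith [norm_nonneg z]
    have hlz2 : ‖dl l z‖ ^ 2 < 1 := lt_of_le_of_lt hle hz2
    have hlz : dl l z ∈ ball (0 : E k) 1 := by
      rw [mem_ball_zero_iff]
      nlinarith [norm_nonneg (dl l z)]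
    rw [indicator_of_mem hlz, hF]
    have hspos : 0 < Real.sqrt (1 - ‖dl l z‖ ^ 2) := Real.sqrt_pos.2 (by linarith)
    have hfd : fb f z = f z := indicator_of_mem (by rw [mem_ball_zero_iff]; exact hz) f
    simp only
    rw [hdens, if_pos ⟨hspos, hz2⟩]
    unfold gs wt2
    rw [hpw, hfd, pow_one]
    have hi : ⟪up (dl l z), ξ⟫ = ⟪z, (WithLp.toLp 2 fun j => l j * ξ j.castSucc : E k)⟫ +
        Real.sqrt (1 - ‖dl l z‖ ^ 2) * ξ (Fin.last k) := by
      rw [PiLp.inner_apply, PiLp.inner_apply, Fin.sum_univ_castSucc]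
      simp only [RCLike.inner_apply, conj_trivial]
      have hcast : ∀ j : Fin k, (up (dl l z)).ofLp j.castSucc = l j * z j := fun j => by
        have := up_cast (dl l z) j
        rw [dl_apply] at this
        exact this
      have hlast : (up (dl l z)).ofLp (Fin.last k) = Real.sqrt (1 - ‖dl l z‖ ^ 2) := up_last _
      rw [hlast]
      congr 1
      · refine Finset.sum_congr rfl fun j _ => ?_
        rw [hcast]
        ring
      · ring
    rw [hi]
    have hexp : ee (-(⟪z, (WithLp.toLp 2 fun j => l j * ξ j.castSucc : E k)⟫ +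
        Real.sqrt (1 - ‖dl l z‖ ^ 2) * ξ (Fin.last k))) =
        cexp (((-2 * Real.pi * ⟪z, (WithLp.toLp 2 fun j => l j * ξ j.castSucc : E k)⟫ : ℝ) : ℂ) * I) *
        ee (-ξ (Fin.last k) * Real.sqrt (1 - ‖dl l z‖ ^ 2)) := by
      unfold ee
      rw [← Complex.exp_add]
      congr 1
      push_cast
      ring
    rw [hexp]
    ring
  · have hfd : fb f z = 0 := indicator_of_notMem (by rw [mem_ball_zero_iff]; exact hz) f
    have hR : gs 1 (-(ξ (Fin.last k))) (fun j => l j ^ 2) (fb f) z = 0 := by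
      unfold gs
      rw [hfd, mul_zero]
    rw [hR, mul_zero]
    by_cases hlz : dl l z ∈ ball (0 : E k) 1
    · rw [indicator_of_mem hlz, hF]
      simp only
      rw [hdens, if_neg, mul_zero, mul_zero]
      rintro ⟨-, h⟩
      apply hz
      nlinarith [norm_nonneg z]
    · rw [indicator_of_notMem hlz]

end Pool.Agent.W933.SP
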